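import Mathlib
import Pool.Agent.V11103.Broken

set_option autoImplicit false

open Filter Topology Set MeasureTheory

namespace Pool.Agent.Results.MP_8df504_an.InfinitelyManyValues

open Pool.Agent.V11103

/-- Negative answer to the second question. -/
theorem result : ∃ T : ℝ → ℝ, IsBrokenLinear T ∧ StrictMonoOn T (Icc 0 1) ∧
    T '' Icc 0 1 = Icc 0 1 ∧
    ∃ R : Set ℝ, R ⊆ Icc 0 1 ∧ MeasurableSet R ∧
      ∃ L : ℝ → ℝ, (∀ p ∈ Icc (0 : ℝ) 1, Tendsto (orbitAverage T R p) atTop (𝓝 (L p))) ∧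
        ∀ F : Set ℝ, F ⊆ Icc 0 1 → volume (Icc (0 : ℝ) 1 \ F) = 0 → (L '' F).Infinite := by
  classical
  refine ⟨T0, T0_broken, T0_strictMono, T0_image, RR patt, RR_subset _,
    measurableSet_RR _ (fun k => ?_), ?_⟩
  · unfold patt
    have hm : Measurable (fun v : ℝ => ⌊1 / v⌋₊) := by
      have : Measurable (fun v : ℝ => 1 / v) := by fun_prop
      exact Nat.measurable_floor.comp this
    exact hm (MeasurableSet.of_discrete (s := {n : ℕ | ((n + 1 : ℕ) : ℤ) ∣ k}))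
  have hex : ∀ p : ℝ, ∃ L : ℝ, p ∈ Icc (0 : ℝ) 1 →
      Tendsto (orbitAverage T0 (RR patt) p) atTop (𝓝 L) ∧
      (0 < p → p ≤ 1 / 2 → L = 1 / ((⌊1 / vv p⌋₊ + 1 : ℕ) : ℝ)) := by
    intro p
    by_cases hp : p ∈ Icc (0 : ℝ) 1
    · obtain ⟨L, hL⟩ := exists_value p hp
      exact ⟨L, fun _ => hL⟩
    · exact ⟨0, fun h => absurd h hp⟩
  choose L hL using hex
  refine ⟨L, fun p hp => (hL p hp).1, ?_⟩
  intro F hF hvol
  refine Set.infinite_of_injective_forall_mem (f := fun j : ℕ => 1 / ((j + 1 + 1 : ℕ) : ℝ)) ?_ ?_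
  · intro i j hij
    simp only [one_div, inv_inj] at hij
    have : i + 1 + 1 = j + 1 + 1 := by exact_mod_cast hij
    omega
  · intro j
    have hj : 1 ≤ j + 1 := by omega
    have hjr : (0 : ℝ) < ((j + 1 : ℕ) : ℝ) := by positivity
    have hlt : (2 : ℝ) ^ (-1 - 1 / ((j + 1 : ℕ) : ℝ)) < (2 : ℝ) ^ (-1 - 1 / (((j + 1 : ℕ) : ℝ) + 1)) := by
      apply Real.rpow_lt_rpow_of_exponent_lt (by norm_num)
      have : 1 / (((j + 1 : ℕ) : ℝ) + 1) < 1 / ((j + 1 : ℕ) : ℝ) :=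
        one_div_lt_one_div_of_lt hjr (by linarith)
      linarith
    obtain ⟨x, hx, hxF⟩ : ∃ x, x ∈ Ioo ((2 : ℝ) ^ (-1 - 1 / ((j + 1 : ℕ) : ℝ)))
        ((2 : ℝ) ^ (-1 - 1 / (((j + 1 : ℕ) : ℝ) + 1))) ∧ x ∈ F := by
      by_contra hcon
      push Not at hcon
      have hsub : Ioo ((2 : ℝ) ^ (-1 - 1 / ((j + 1 : ℕ) : ℝ)))
        ((2 : ℝ) ^ (-1 - 1 / (((j + 1 : ℕ) : ℝ) + 1))) ⊆ Icc (0 : ℝ) 1 \ F := by
        intro x hx
        obtain ⟨a, b, -⟩ := vv_between hj hx.1 hx.2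
        exact ⟨⟨a.le, by linarith⟩, hcon x hx⟩
      have h0 := measure_mono_null hsub hvol
      rw [Real.volume_Ioo, ENNReal.ofReal_eq_zero] at h0
      linarith
    obtain ⟨a, b, c⟩ := vv_between hj hx.1 hx.2
    refine ⟨x, hxF, ?_⟩
    have h2 := (hL x (hF hxF)).2 a b
    rw [h2, c]

end Pool.Agent.Results.MP_8df504_an.InfinitelyManyValues
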