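import Mathlib
import Pool.Agent.V11103.Broken

set_option autoImplicit false

open Filter Topology Set

namespace Pool.Agent.Results.MP_8df504_an.NoLimit

open Pool.Agent.V11103

/-- Negative answer to the first question. -/
theorem result : ∃ T : ℝ → ℝ, IsBrokenLinear T ∧ StrictMonoOn T (Icc 0 1) ∧
    T '' Icc 0 1 = Icc 0 1 ∧
    ∃ R : Set ℝ, R ⊆ Icc 0 1 ∧ MeasurableSet R ∧
      ∀ p ∈ Ioo (0 : ℝ) 1, ¬ ∃ L : ℝ, Tendsto (orbitAverage T R p) atTop (𝓝 L) := by
  refine ⟨T0, T0_broken, T0_strictMono, T0_image, RR (fun k _ => InS k), RR_subset _,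
    measurableSet_RR _ (fun k => by simp), ?_⟩
  rintro p ⟨h0, h1⟩
  obtain ⟨K, n0, v, -, hφ⟩ := orbit_eventually h0 h1
  refine no_limit (fun i => (RR (fun k _ => InS k)).indicator (fun _ => (1 : ℝ)) (T0^[i] p)) K n0
    ?_ ?_ ?_
  · intro i
    by_cases h : T0^[i] p ∈ RR (fun k _ => InS k)
    · simp only [indicator_of_mem h]; norm_num
    · simp only [indicator_of_notMem h]; norm_num
  · intro i hi h
    exact indicator_of_mem ((hφ _ i hi).mpr h) _
  · intro i hi h
    exact indicator_of_notMem (fun h2 => h ((hφ _ i hi).mp h2)) _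

end Pool.Agent.Results.MP_8df504_an.NoLimit
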